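import Mathlib

set_option autoImplicit false

/-!
Arithmetic of `(⌊(d-2)/h⌋ + 1) / d`.
-/

namespace Pool.Agent.H173K

/-- `⌊(d-2)/h⌋ + 1` -/
def cc (d h : ℕ) : ℕ := (((d : ℤ) - 2) / (h : ℤ) + 1).toNat

theorem cc_eq {d h q r : ℕ} (hh : 3 ≤ h) (hd : d = h * q + r + 2) (hr : r < h) :
    cc d h = q + 1 := by
  unfold cc
  have h1 : ((d : ℤ) - 2) / (h : ℤ) = q := by
    rw [hd]
    push_cast
    rw [show ((h : ℤ) * q + r + 2 - 2) = r + h * q by ring,
      Int.add_mul_ediv_left _ _ (by omega), Int.ediv_eq_zero_of_lt (by omega) (by exact_mod_cast hr)]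
    ring
  rw [h1]
  omega

theorem cc_two_le {d h : ℕ} (hh : 3 ≤ h) (hd : 2 ≤ d) : cc d h = (d - 2) / h + 1 := by
  apply cc_eq hh (r := (d - 2) % h)
  · have := Nat.div_add_mod (d - 2) h
    omega
  · exact Nat.mod_lt _ (by omega)

theorem cc_one {h : ℕ} (hh : 3 ≤ h) : cc 1 h = 0 := by
  unfold cc
  have h1 : (((1 : ℕ) : ℤ) - 2) / (h : ℤ) = -1 := by
    rw [Int.ediv_eq_iff_of_pos (by omega)]
    constructor <;> push_cast <;> omega
  rw [h1]
  rfl

/-- residues at least 2 -/
theorem cc_hi {d h : ℕ} (hh : 3 ≤ h) (hd : 2 ≤ d % h) : h * cc d h + d % h = d + h := by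
  have h1 := Nat.div_add_mod d h
  have h2 : d % h < h := Nat.mod_lt _ (by omega)
  have h3 : cc d h = d / h + 1 := by
    apply cc_eq hh (r := d % h - 2)
    · omega
    · omega
  rw [h3, Nat.mul_add]
  omega

/-- residues at most 1 -/
theorem cc_lo {d h : ℕ} (hh : 3 ≤ h) (hd1 : 1 ≤ d) (hd : d % h ≤ 1) : h * cc d h ≤ d := by
  rcases Nat.eq_or_lt_of_le hd1 with h0 | h0
  · rw [← h0, cc_one hh]
    simp
  have h1 := Nat.div_add_mod d h
  have hq : 1 ≤ d / h := by
    rw [Nat.one_le_div_iff (by omega)]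
    by_contra hcon
    rw [Nat.mod_eq_of_lt (by omega)] at hd
    omega
  obtain ⟨q, hq'⟩ : ∃ q, d / h = q + 1 := ⟨d / h - 1, by omega⟩
  rw [hq', Nat.mul_add] at h1
  have h3 : cc d h = q + 1 := by
    apply cc_eq hh (r := h + d % h - 2)
    · omega
    · omega
  rw [h3, Nat.mul_add]
  omega

theorem mod_le_one_of_primes {h : ℕ} (hh : 3 ≤ h) (d : ℕ) (hd : d ≠ 0)
    (hp : ∀ p, p.Prime → p ∣ d → p % h ≤ 1) : d % h ≤ 1 := by
  induction d using Nat.recOnMul with
  | zero => exact absurd rfl hd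
  | one => rw [Nat.mod_eq_of_lt (by omega)]
  | prime p hpp => exact hp p hpp dvd_rfl
  | mul a b iha ihb =>
    have ha : a ≠ 0 := fun h0 => hd (by rw [h0, zero_mul])
    have hb : b ≠ 0 := fun h0 => hd (by rw [h0, mul_zero])
    have h1 := iha ha (fun p hpp hpd => hp p hpp (dvd_mul_of_dvd_left hpd _))
    have h2 := ihb hb (fun p hpp hpd => hp p hpp (dvd_mul_of_dvd_right hpd _))
    rw [Nat.mul_mod]
    have h3 : a % h * (b % h) ≤ 1 := by
      calc a % h * (b % h) ≤ 1 * 1 := Nat.mul_le_mul h1 h2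
        _ = 1 := rfl
    exact (Nat.mod_le _ _).trans h3

/-- a composite divisor is beaten by one of its prime factors -/
theorem composite {h : ℕ} (hh : 3 ≤ h) {d : ℕ} (hd2 : 2 ≤ d) (hd : 2 ≤ d % h) (hnp : ¬ d.Prime) :
    ∃ p, p.Prime ∧ p ∣ d ∧ 2 ≤ p % h ∧ cc d h * p < cc p h * d := by
  have hdh : d % h < h := Nat.mod_lt _ (by omega)
  have hcd := cc_hi hh hd
  -- reduction of the inequality
  have red : ∀ p m : ℕ, d = p * m → 0 < p → 2 ≤ p % h → h - 1 ≤ (h - p % h) * m →
      cc d h * p < cc p h * d := by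
    intro p m hdm hp0 hp2 hm
    have hcp := cc_hi hh hp2
    have hph : p % h < h := Nat.mod_lt _ (by omega)
    obtain ⟨u, hu⟩ : ∃ u, h = p % h + u := ⟨h - p % h, by omega⟩
    obtain ⟨w, hw⟩ : ∃ w, h = d % h + w := ⟨h - d % h, by omega⟩
    have e1 : h * cc p h = p + u := by omega
    have e2 : h * cc d h = d + w := by omega
    have e3 : h - p % h = u := by omega
    rw [e3] at hm
    have e4 : w < u * m := by omega
    have e5 : h * (cc d h * p) < h * (cc p h * d) := by
      calc h * (cc d h * p) = (h * cc d h) * p := by ring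
        _ = (d + w) * p := by rw [e2]
        _ = d * p + w * p := by ring
        _ < d * p + (u * m) * p := by
          apply Nat.add_lt_add_left
          exact Nat.mul_lt_mul_of_pos_right e4 hp0
        _ = d * p + u * d := by rw [hdm]; ring
        _ = (p + u) * d := by ring
        _ = (h * cc p h) * d := by rw [e1]
        _ = h * (cc p h * d) := by ring
    exact Nat.lt_of_mul_lt_mul_left e5
  rcases lt_or_ge d.minFac h with hlt | hge
  · have hpp := Nat.minFac_prime (n := d) (by omega)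
    have hp2 : d.minFac % h = d.minFac := Nat.mod_eq_of_lt hlt
    obtain ⟨m, hm⟩ := Nat.minFac_dvd d
    have hsq := Nat.minFac_sq_le_self (n := d) (by omega) hnp
    have hmle : d.minFac ≤ m := by
      rw [sq] at hsq
      have : d.minFac * d.minFac ≤ d.minFac * m := by rw [← hm]; exact hsq
      exact Nat.le_of_mul_le_mul_left this hpp.pos
    refine ⟨d.minFac, hpp, Nat.minFac_dvd d, by rw [hp2]; exact hpp.two_le, ?_⟩
    apply red _ m hm hpp.pos (by rw [hp2]; exact hpp.two_le)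
    rw [hp2]
    obtain ⟨u, hu⟩ : ∃ u, h = d.minFac + u := ⟨h - d.minFac, by omega⟩
    have e3 : h - d.minFac = u := by omega
    rw [e3]
    have hu1 : 1 ≤ u := by omega
    have := hpp.two_le
    have e4 : u * d.minFac ≤ u * m := Nat.mul_le_mul_left _ hmle
    have e5 : h - 1 ≤ u * d.minFac := by
      obtain ⟨x, hx⟩ : ∃ x, d.minFac = x + 1 := ⟨d.minFac - 1, by omega⟩
      obtain ⟨y, hy⟩ : ∃ y, u = y + 1 := ⟨u - 1, by omega⟩
      rw [hx, hy] at hu ⊢
      have : (y + 1) * (x + 1) = y * x + y + x + 1 := by ring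
      rw [this, hu]
      omega
    omega
  · obtain ⟨p, hpp, hpd, hp2⟩ : ∃ p, p.Prime ∧ p ∣ d ∧ 2 ≤ p % h := by
      by_contra hcon
      push Not at hcon
      have := mod_le_one_of_primes hh d (by omega) (fun p h1 h2 => by have := hcon p h1 h2; omega)
      omega
    obtain ⟨m, hm⟩ := hpd
    refine ⟨p, hpp, ⟨m, hm⟩, hp2, ?_⟩
    have hm1 : m ≠ 1 := by
      rintro rfl
      rw [mul_one] at hm
      exact hnp (hm ▸ hpp)
    have hm0 : m ≠ 0 := by
      rintro rfl
      omega
    have hmm : h ≤ m := by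
      have h1 := Nat.minFac_prime hm1
      have h2 : m.minFac ∣ d := (Nat.minFac_dvd m).trans ⟨p, by rw [hm]; ring⟩
      have h3 : d.minFac ≤ m.minFac := Nat.minFac_le_of_dvd h1.two_le h2
      have h4 : m.minFac ≤ m := Nat.minFac_le (by omega)
      omega
    apply red _ m hm hpp.pos hp2
    have hph : p % h < h := Nat.mod_lt _ (by omega)
    have : 1 * m ≤ (h - p % h) * m := Nat.mul_le_mul_right _ (by omega)
    omega

/-- two distinct primes never tie -/
theorem no_tie {h p d : ℕ} (hh : 3 ≤ h) (hp : p.Prime) (hd : d.Prime) (hp2 : 2 ≤ p % h)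
    (hd2 : 2 ≤ d % h) (heq : cc d h * p = cc p h * d) : d = p := by
  by_contra hne
  have hcop : Nat.Coprime p d := (Nat.coprime_primes hp hd).2 (fun e => hne e.symm)
  have hcd := cc_hi hh hd2
  have hcp := cc_hi hh hp2
  have hph : p % h < h := Nat.mod_lt _ (by omega)
  have hdh : d % h < h := Nat.mod_lt _ (by omega)
  obtain ⟨u, hu⟩ : ∃ u, h = p % h + u := ⟨h - p % h, by omega⟩
  obtain ⟨w, hw⟩ : ∃ w, h = d % h + w := ⟨h - d % h, by omega⟩
  have e1 : h * cc p h = p + u := by omega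
  have e2 : h * cc d h = d + w := by omega
  have e3 : w * p = u * d := by
    have : h * (cc d h * p) = h * (cc p h * d) := by rw [heq]
    have h1 : h * (cc d h * p) = d * p + w * p := by
      rw [← mul_assoc, e2]; ring
    have h2 : h * (cc p h * d) = p * d + u * d := by
      rw [← mul_assoc, e1]; ring
    rw [h1, h2, mul_comm d p] at this
    omega
  have hpu : p ∣ u := hcop.dvd_of_dvd_mul_right ⟨w, by rw [← e3]; ring⟩
  have hdw : d ∣ w := hcop.symm.dvd_of_dvd_mul_right ⟨u, by rw [e3]; ring⟩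
  have hpu' := Nat.le_of_dvd (by omega) hpu
  have hdw' := Nat.le_of_dvd (by omega) hdw
  have hpm : p % h = p := Nat.mod_eq_of_lt (by omega)
  have hdm : d % h = d := Nat.mod_eq_of_lt (by omega)
  rw [hpm] at hu
  rw [hdm] at hw
  have e4 : h * p = h * d := by
    have h1 : h * p = d * p + w * p := by
      conv_lhs => rw [hw]
      ring
    have h2 : h * d = p * d + u * d := by
      conv_lhs => rw [hu]
      ring
    rw [h1, h2, e3, mul_comm]
  exact hne (Nat.eq_of_mul_eq_mul_left (by omega) e4.symm)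

/-- the unique maximiser of `cc d h / d` over the divisors of `n` -/
theorem exists_best {h n : ℕ} (hh : 3 ≤ h) (hn : n ≠ 0)
    (hex : ∃ p, p.Prime ∧ p ∣ n ∧ 2 ≤ p % h) :
    ∃ p, p.Prime ∧ p ∣ n ∧ 2 ≤ p % h ∧ ∀ d, d ∣ n → d ≠ p → cc d h * p < cc p h * d := by
  classical
  set F := n.divisors.filter (fun p => p.Prime ∧ 2 ≤ p % h) with hF
  have hmem : ∀ p, p ∈ F ↔ p.Prime ∧ p ∣ n ∧ 2 ≤ p % h := by
    intro p
    rw [hF, Finset.mem_filter, Nat.mem_divisors]
    tauto
  have hne : F.Nonempty := by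
    obtain ⟨p, hp⟩ := hex
    exact ⟨p, (hmem p).2 hp⟩
  obtain ⟨p, hpF, hmax⟩ := Finset.exists_max_image F (fun p => (cc p h : ℚ) / p) hne
  obtain ⟨hpp, hpn, hp2⟩ := (hmem p).1 hpF
  have hmax' : ∀ q ∈ F, cc q h * p ≤ cc p h * q := by
    intro q hq
    have hq' := ((hmem q).1 hq).1
    have h1 := hmax q hq
    rw [div_le_div_iff₀ (by exact_mod_cast hq'.pos) (by exact_mod_cast hpp.pos)] at h1
    exact_mod_cast h1
  refine ⟨p, hpp, hpn, hp2, ?_⟩
  intro d hdn hdp
  have hd0 : 0 < d := Nat.pos_of_dvd_of_pos hdn (Nat.pos_of_ne_zero hn)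
  have hcp := cc_hi hh hp2
  have hph : p % h < h := Nat.mod_lt _ (by omega)
  rcases Nat.lt_or_ge (d % h) 2 with hd | hd
  · have h1 := cc_lo hh (by omega) (show d % h ≤ 1 by omega)
    have h2 : p + 1 ≤ h * cc p h := by omega
    have e5 : h * (cc d h * p) < h * (cc p h * d) := by
      calc h * (cc d h * p) = (h * cc d h) * p := by ring
        _ ≤ d * p := Nat.mul_le_mul_right _ h1
        _ < d * (p + 1) := Nat.mul_lt_mul_of_pos_left (by omega) hd0
        _ ≤ d * (h * cc p h) := Nat.mul_le_mul_left _ h2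
        _ = h * (cc p h * d) := by ring
    exact Nat.lt_of_mul_lt_mul_left e5
  · have hd2 : 2 ≤ d := hd.trans (Nat.mod_le _ _)
    by_cases hdpr : d.Prime
    · have h1 := hmax' d ((hmem d).2 ⟨hdpr, hdn, hd⟩)
      rcases Nat.eq_or_lt_of_le h1 with h2 | h2
      · exact absurd (no_tie hh hpp hdpr hp2 hd h2) hdp
      · exact h2
    · obtain ⟨q, hq, hqd, hq2, hlt⟩ := composite hh hd2 hd hdpr
      have h1 := hmax' q ((hmem q).2 ⟨hq, hqd.trans hdn, hq2⟩)
      have e5 : (cc d h * p) * q < (cc p h * d) * q := by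
        calc (cc d h * p) * q = (cc d h * q) * p := by ring
          _ < (cc q h * d) * p := Nat.mul_lt_mul_of_pos_right hlt hpp.pos
          _ = (cc q h * p) * d := by ring
          _ ≤ (cc p h * q) * d := Nat.mul_le_mul_right _ h1
          _ = (cc p h * d) * q := by ring
      exact Nat.lt_of_mul_lt_mul_right e5

end Pool.Agent.H173K
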