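import Pool.Agent.H173K.PC.Vosper
import Pool.Agent.H173K.Kneser
import Pool.Agent.H173K.Arith

set_option autoImplicit false

/-!
Sets `A` with `hA ≠ G` of the largest possible size.
-/

namespace Pool.Agent.H173K

open Finset
open scoped Pointwise
open Pool.Agent.H173K.Kneser (sm sm_zero sm_succ sm_one sm_nonempty stab mem_stab
  mem_stab_of_forall kneser_sm)
open Pool.Agent.H173K.PC (I IsI UD mem_I card_I vosper)

section hom

variable {G K : Type*} [AddCommGroup G] [Fintype G] [DecidableEq G]
  [AddCommGroup K] [Fintype K] [DecidableEq K]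


theorem sm_image (φ : G →+ K) (A : Finset G) (k : ℕ) :
    sm k (A.image φ) = (sm k A).image φ := by
  induction k with
  | zero => rw [sm_zero, sm_zero, image_singleton, map_zero]
  | succ k ih => rw [sm_succ, sm_succ, ih, image_add]


theorem mem_sm_iff (A : Finset G) (k : ℕ) : ∀ x : G,
    x ∈ sm k A ↔ ∃ f : Fin k → G, (∀ i, f i ∈ A) ∧ ∑ i, f i = x := by
  induction k with
  | zero =>
    intro x
    rw [sm_zero, mem_singleton]
    constructor
    · intro h
      exact ⟨fun i => i.elim0, fun i => i.elim0, by simp [h]⟩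
    · rintro ⟨f, _, h⟩
      simpa using h.symm
  | succ k ih =>
    intro x
    rw [sm_succ, mem_add]
    constructor
    · rintro ⟨y, hy, z, hz, rfl⟩
      obtain ⟨f, hf, rfl⟩ := (ih y).1 hy
      refine ⟨Fin.snoc f z, ?_, ?_⟩
      · intro i
        refine Fin.lastCases ?_ (fun j => ?_) i
        · simpa using hz
        · simpa using hf j
      · rw [Fin.sum_univ_castSucc]
        simp
    · rintro ⟨f, hf, rfl⟩
      refine ⟨∑ i : Fin k, f i.castSucc, (ih _).2 ⟨_, fun i => hf _, rfl⟩, f (Fin.last k), hf _, ?_⟩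
      rw [Fin.sum_univ_castSucc]

theorem card_pre (φ : G →+ K) (hφ : Function.Surjective φ) (B : Finset K) :
    (univ.filter (fun x => φ x ∈ B)).card * Fintype.card K = B.card * Fintype.card G := by
  set c := (univ.filter (fun x : G => φ x = 0)).card with hc
  have hfib : ∀ y : K, (univ.filter (fun x : G => φ x = y)).card = c := fun y =>
    AddMonoidHom.card_fiber_eq_of_mem_range φ (hφ y) (hφ 0)
  have key : ∀ B : Finset K, (univ.filter (fun x => φ x ∈ B)).card = B.card * c := by
    intro B
    have h0 := card_eq_sum_card_fiberwise (f := φ) (s := univ.filter (fun x => φ x ∈ B)) (t := B)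
      (fun x hx => by simpa using hx)
    rw [h0]
    rw [sum_congr rfl (g := fun _ => c) (fun y hy => ?_), sum_const, smul_eq_mul]
    rw [filter_filter, ← hfib y]
    congr 1
    ext x
    simp only [mem_filter, mem_univ, true_and]
    constructor
    · exact fun h => h.2
    · rintro rfl
      exact ⟨hy, rfl⟩
  have hG : Fintype.card G = Fintype.card K * c := by
    have := key univ
    simpa using this
  rw [key, hG]
  ring

end hom

section prime

variable {p : ℕ} [Fact p.Prime]

theorem ap_of {h : ℕ} (hh : 3 ≤ h) (B : Finset (ZMod p)) (hB : B.Nonempty)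
    (hc : 2 ≤ B.card → p + 1 ≤ h * B.card) (hne : sm h B ≠ univ) :
    ∃ (u : (ZMod p)ˣ) (x : ZMod p), B.image (fun y => (u : ZMod p) * y) = I x B.card := by
  have hp : p.Prime := Fact.out
  have : NeZero p := ⟨hp.ne_zero⟩
  rcases Nat.lt_or_ge B.card 2 with h1 | h1
  · have h2 : B.card = 1 := by
      have := hB.card_pos
      omega
    obtain ⟨b, rfl⟩ := card_eq_one.1 h2
    refine ⟨1, b, ?_⟩
    ext y
    simp [I]
  have hc := hc h1
  obtain ⟨k, rfl⟩ : ∃ k, h = k + 1 := ⟨h - 1, by omega⟩
  -- a missing element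
  obtain ⟨c, hcn⟩ : ∃ c, c ∉ sm (k + 1) B := by
    by_contra hcon
    push Not at hcon
    exact hne (eq_univ_of_forall hcon)
  have hsum : (sm k B).card + B.card ≤ p := by
    have hdis : Disjoint (sm k B) (B.image (fun y => c - y)) := by
      rw [disjoint_left]
      intro x hx hx2
      obtain ⟨y, hy, rfl⟩ := mem_image.1 hx2
      apply hcn
      rw [sm_succ]
      have := add_mem_add hx hy
      rwa [sub_add_cancel] at this
    have h3 : (B.image (fun y => c - y)).card = B.card :=
      card_image_of_injective _ (fun a b hab => by simpa using hab)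
    rw [← h3, ← card_union_of_disjoint hdis]
    calc _ ≤ (univ : Finset (ZMod p)).card := card_le_univ _
      _ = p := by rw [card_univ, ZMod.card]
  have hmono1 : ∀ j, (sm j B).card ≤ (sm (j + 1) B).card := by
    intro j
    obtain ⟨b, hb⟩ := hB
    have h3 : ((sm j B).image (fun y => y + b)).card = (sm j B).card :=
      card_image_of_injective _ (add_left_injective b)
    rw [← h3]
    apply card_le_card
    intro x hx
    obtain ⟨y, hy, rfl⟩ := mem_image.1 hx
    rw [sm_succ]
    exact add_mem_add hy hb
  have hmono : ∀ i j, i ≤ j → (sm i B).card ≤ (sm j B).card := by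
    intro i j hij
    induction j, hij using Nat.le_induction with
    | base => exact le_rfl
    | succ j _ ih => exact ih.trans (hmono1 j)
  obtain ⟨j, hj1, hjk, hlt⟩ : ∃ j, 1 ≤ j ∧ j + 1 ≤ k ∧
      (sm (j + 1) B).card < (sm j B).card + B.card := by
    by_contra hcon
    push Not at hcon
    have hind : ∀ j, 1 ≤ j → j ≤ k → j * B.card ≤ (sm j B).card := by
      intro j hj
      induction j, hj using Nat.le_induction with
      | base => intro _; rw [sm_one, one_mul]
      | succ j hj ih =>
        intro hjk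
        have h4 := ih (by omega)
        have h5 := hcon j hj hjk
        rw [Nat.succ_mul]
        omega
    have h6 := hind k (by omega) le_rfl
    rw [Nat.succ_mul] at hc
    omega
  have hk1 := hmono (j + 1) k hjk
  have hcd := ZMod.cauchy_davenport hp (sm_nonempty hB j) hB
  rw [← sm_succ] at hcd
  have hb1 : B.card ≤ (sm j B).card := by
    have := hmono 1 j hj1
    rwa [sm_one] at this
  have heq : (sm j B + B).card + 1 = (sm j B).card + B.card := by
    rw [← sm_succ]
    rcases min_le_iff.1 hcd with h7 | h7 <;> omega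
  have hU : UD B := fun b _ b' _ hbb => isUnit_iff_ne_zero.2 (sub_ne_zero.2 hbb)
  obtain ⟨g, _, x, l, hl⟩ := vosper (A := sm j B) (B := B) (by omega) h1 hU heq
    (by rw [← sm_succ]; omega)
  have hcardI : (B.image (fun y => (g : ZMod p) * y)).card = B.card :=
    card_image_of_injective _ (fun a b hab => by simpa using hab)
  refine ⟨g, x, ?_⟩
  rw [hl]
  rcases le_or_gt l p with h8 | h8
  · rw [hl, card_I h8] at hcardI
    rw [hcardI]
  · exfalso
    have h9 : (I x p : Finset (ZMod p)) ⊆ I x l := by
      intro y hy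
      obtain ⟨i, hi, rfl⟩ := mem_I.1 hy
      exact mem_I.2 ⟨i, by omega, rfl⟩
    have h10 := card_le_card h9
    rw [card_I le_rfl, ← hl, hcardI] at h10
    have h11 := (sm_nonempty hB k).card_pos
    omega

end prime

section main

variable {G : Type*} [AddCommGroup G] [Fintype G] [DecidableEq G]

theorem forward {h p : ℕ} (hh : 3 ≤ h) (hp : p.Prime) (hp2 : 2 ≤ p % h)
    (hbest : ∀ d, d ∣ Fintype.card G → d ≠ p → cc d h * p < cc p h * d)
    (A : Finset G) (hcard : A.card * p = cc p h * Fintype.card G) (hne : sm h A ≠ univ) :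
    ∃ φ : G →+ ZMod p, Function.Surjective φ ∧ ∃ b : ZMod p,
      ∀ x, x ∈ A ↔ ∃ i : ℕ, i ≤ (p - 2) / h ∧ φ x = b + i := by
  classical
  have : Fact p.Prime := ⟨hp⟩
  have : NeZero p := ⟨hp.ne_zero⟩
  have hccp : cc p h = (p - 2) / h + 1 := cc_two_le hh hp.two_le
  have hG0 : 0 < Fintype.card G := Fintype.card_pos
  have hA : A.Nonempty := by
    rw [← card_pos]
    have h1 : 0 < cc p h * Fintype.card G := Nat.mul_pos (by rw [hccp]; exact Nat.succ_pos _) hG0
    rw [← hcard] at h1
    exact Nat.pos_of_mul_pos_right h1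
  set S := sm h A with hS
  set H := stab S with hH
  have : Fintype (G ⧸ H) := Fintype.ofFinite _
  set π : G →+ G ⧸ H := QuotientAddGroup.mk' H with hπ
  have hsurj : Function.Surjective π := QuotientAddGroup.mk'_surjective H
  set B := A.image π with hBdef
  have hB : B.Nonempty := hA.image _
  have hsmB : sm h B = S.image π := sm_image π A h
  have hmemS : ∀ x, π x ∈ S.image π ↔ x ∈ S := by
    intro x
    constructor
    · intro hx
      obtain ⟨s, hs, hsx⟩ := mem_image.1 hx
      have h1 : -s + x ∈ H := QuotientAddGroup.eq.1 hsx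
      have h2 := (mem_stab.1 h1 s).2 hs
      rwa [show -s + x + s = x by abel] at h2
    · exact fun hx => mem_image_of_mem _ hx
  have hstab : stab (sm h B) = ⊥ := by
    rw [eq_bot_iff]
    intro k hk
    obtain ⟨g, rfl⟩ := hsurj k
    rw [AddSubgroup.mem_bot]
    have hg : g ∈ H := by
      apply mem_stab_of_forall
      intro x hx
      rw [← hmemS, map_add, ← hsmB]
      exact (mem_stab.1 hk (π x)).2 (by rw [hsmB]; exact mem_image_of_mem _ hx)
    exact (QuotientAddGroup.eq_zero_iff g).2 hg
  have hkn := kneser_sm hB h (by omega) hstab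
  have hneB : sm h B ≠ univ := by
    intro hcon
    apply hne
    rw [eq_univ_iff_forall]
    intro x
    rw [← hmemS, ← hsmB, hcon]
    exact mem_univ _
  have hltB : (sm h B).card < Fintype.card (G ⧸ H) := by
    rw [← card_univ]
    exact card_lt_card (ssubset_univ_iff.2 hneB)
  have hposB := (sm_nonempty hB h).card_pos
  set d := Fintype.card (G ⧸ H) with hd
  have hd2 : 2 ≤ d := by omega
  have hdG : d ∣ Fintype.card G := by
    have := card_pre π hsurj {0}
    rw [card_singleton, one_mul] at this
    exact ⟨_, by rw [← this, mul_comm]⟩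
  have hBcard : B.card ≤ cc d h := by
    rw [cc_two_le hh hd2]
    have hb0 := hB.card_pos
    obtain ⟨b, hb⟩ : ∃ b, B.card = b + 1 := ⟨B.card - 1, by omega⟩
    rw [hb] at hkn ⊢
    have : b ≤ (d - 2) / h := by
      rw [Nat.le_div_iff_mul_le (by omega), mul_comm]
      rw [Nat.mul_add] at hkn
      omega
    omega
  set P := univ.filter (fun x => π x ∈ B) with hP
  have hAP : A ⊆ P := fun x hx => mem_filter.2 ⟨mem_univ _, mem_image_of_mem _ hx⟩
  have hAPc := card_le_card hAP
  have hPc : P.card * d = B.card * Fintype.card G := card_pre π hsurj B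
  have hdp : d = p := by
    by_contra hcon
    have h1 := hbest d hdG hcon
    have h2 : A.card * d ≤ cc d h * Fintype.card G := by
      calc A.card * d ≤ P.card * d := Nat.mul_le_mul_right _ hAPc
        _ = B.card * Fintype.card G := hPc
        _ ≤ cc d h * Fintype.card G := Nat.mul_le_mul_right _ hBcard
    have h3 : A.card * d * p < A.card * d * p := by
      calc A.card * d * p ≤ cc d h * Fintype.card G * p := Nat.mul_le_mul_right _ h2
        _ = cc d h * p * Fintype.card G := by ring
        _ < cc p h * d * Fintype.card G := Nat.mul_lt_mul_of_pos_right h1 hG0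
        _ = (cc p h * Fintype.card G) * d := by ring
        _ = A.card * d * p := by rw [← hcard]; ring
    exact lt_irrefl _ h3
  rw [hdp] at hBcard hPc
  have hPA : P.card ≤ A.card := by
    have : P.card * p ≤ A.card * p := by
      rw [hPc, hcard]
      exact Nat.mul_le_mul_right _ hBcard
    exact Nat.le_of_mul_le_mul_right this hp.pos
  have hAeq : A = P := eq_of_subset_of_card_le hAP hPA
  have hBc : B.card = cc p h := by
    have h1 : B.card * Fintype.card G = cc p h * Fintype.card G := by
      rw [← hPc, ← hcard, ← hAeq]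
    exact Nat.eq_of_mul_eq_mul_right hG0 h1
  -- the quotient is `ZMod p`
  obtain ⟨e⟩ : Nonempty ((G ⧸ H) ≃+ ZMod p) := by
    have hcK : Nat.card (G ⧸ H) = p := by
      rw [Nat.card_eq_fintype_card]
      exact hdp
    have : IsAddCyclic (G ⧸ H) := isAddCyclic_of_prime_card hcK
    have e := (zmodAddCyclicAddEquiv (G := G ⧸ H) inferInstance).symm
    rw [hcK] at e
    exact ⟨e⟩
  set B' := B.image e with hB'
  have hB'c : B'.card = cc p h := by
    rw [hB', card_image_of_injective _ e.injective, hBc]
  have hcp := cc_hi hh hp2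
  have hph : p % h < h := Nat.mod_lt _ (by omega)
  have hneB' : sm h B' ≠ univ := by
    intro hcon
    apply hneB
    have h1 : sm h B' = (sm h B).image e := sm_image e.toAddMonoidHom B h
    rw [eq_univ_iff_forall]
    intro x
    have h2 : e x ∈ (sm h B).image e := by
      rw [← h1, hcon]
      exact mem_univ _
    obtain ⟨y, hy, hyx⟩ := mem_image.1 h2
    rwa [← e.injective hyx]
  obtain ⟨u, x0, hu⟩ := ap_of hh B' (hB.image _) (fun _ => by rw [hB'c]; omega) hneB'
  have hφ : ∀ x, ((AddMonoidHom.mulLeft (u : ZMod p)).comp (e.toAddMonoidHom.comp π)) x =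
      (u : ZMod p) * e (π x) := fun x => rfl
  refine ⟨(AddMonoidHom.mulLeft (u : ZMod p)).comp (e.toAddMonoidHom.comp π), ?_, x0, ?_⟩
  · intro y
    obtain ⟨x, hx⟩ := hsurj (e.symm ((u⁻¹ : (ZMod p)ˣ) * y))
    refine ⟨x, ?_⟩
    rw [hφ, hx, e.apply_symm_apply, ← mul_assoc, Units.mul_inv, one_mul]
  · intro x
    rw [hφ]
    have h1 : x ∈ A ↔ e (π x) ∈ B' := by
      rw [hAeq, hP, mem_filter, hB']
      constructor
      · exact fun hx => mem_image_of_mem _ hx.2
      · intro hx
        obtain ⟨y, hy, hyx⟩ := mem_image.1 hx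
        exact ⟨mem_univ _, by rwa [← e.injective hyx]⟩
    have h2 : e (π x) ∈ B' ↔ (u : ZMod p) * e (π x) ∈ I x0 B'.card := by
      rw [← hu]
      constructor
      · exact fun hx => mem_image_of_mem _ hx
      · intro hx
        obtain ⟨y, hy, hyx⟩ := mem_image.1 hx
        have : y = e (π x) := by simpa using hyx
        rwa [← this]
    rw [h1, h2, mem_I, hB'c, hccp]
    constructor
    · rintro ⟨i, hi, hix⟩
      exact ⟨i, by omega, hix.symm⟩
    · rintro ⟨i, hi, hix⟩
      exact ⟨i, by omega, hix.symm⟩

theorem backward {h p : ℕ} (hh : 3 ≤ h) (hp : p.Prime) (φ : G →+ ZMod p)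
    (hφ : Function.Surjective φ) (b : ZMod p) (A : Finset G)
    (hA : ∀ x, x ∈ A ↔ ∃ i : ℕ, i ≤ (p - 2) / h ∧ φ x = b + i) :
    A.card * p = cc p h * Fintype.card G ∧ sm h A ≠ univ := by
  classical
  have : Fact p.Prime := ⟨hp⟩
  have : NeZero p := ⟨hp.ne_zero⟩
  have hccp : cc p h = (p - 2) / h + 1 := cc_two_le hh hp.two_le
  have hdiv : (p - 2) / h ≤ p - 2 := Nat.div_le_self _ _
  have hp2 := hp.two_le
  constructor
  · have h1 : A = univ.filter (fun x => φ x ∈ I b (cc p h)) := by
      ext x
      rw [mem_filter, mem_I, hA, hccp]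
      constructor
      · rintro ⟨i, hi, hix⟩
        exact ⟨mem_univ _, i, by omega, hix.symm⟩
      · rintro ⟨_, i, hi, hix⟩
        exact ⟨i, by omega, hix.symm⟩
    have h2 := card_pre φ hφ (I b (cc p h))
    rw [← h1, ZMod.card, card_I (by omega)] at h2
    exact h2
  · have hsub : ∀ j, ∀ x ∈ sm j A, ∃ m : ℕ, m ≤ j * ((p - 2) / h) ∧ φ x = (j : ZMod p) * b + m := by
      intro j
      induction j with
      | zero =>
        intro x hx
        rw [sm_zero, mem_singleton] at hx
        refine ⟨0, by omega, ?_⟩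
        rw [hx]
        simp
      | succ j ih =>
        intro x hx
        rw [sm_succ, mem_add] at hx
        obtain ⟨y, hy, z, hz, rfl⟩ := hx
        obtain ⟨m, hm, hm2⟩ := ih y hy
        obtain ⟨i, hi, hi2⟩ := (hA z).1 hz
        refine ⟨m + i, ?_, ?_⟩
        · rw [Nat.succ_mul]
          omega
        · rw [map_add, hm2, hi2]
          push_cast
          ring
    intro hcon
    obtain ⟨x, hx⟩ := hφ ((h : ZMod p) * b + ((p - 1 : ℕ) : ZMod p))
    obtain ⟨m, hm, hm2⟩ := hsub h x (by rw [hcon]; exact mem_univ _)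
    rw [hx] at hm2
    have h3 : ((p - 1 : ℕ) : ZMod p) = (m : ZMod p) := add_left_cancel hm2
    rw [ZMod.natCast_eq_natCast_iff'] at h3
    have h4 : h * ((p - 2) / h) ≤ p - 2 := Nat.mul_div_le _ _
    rw [Nat.mod_eq_of_lt (by omega), Nat.mod_eq_of_lt (by omega)] at h3
    omega

end main

end Pool.Agent.H173K
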